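import Pool.Agent.Helper70.BN.St2

/-!
# Project BN, module LIEP: assembly
-/

set_option autoImplicit false

namespace Pool.Agent.Helper57.BN

open Pool.Agent.Helper70.BN Pool.Agent.Helper75.MX Pool.Agent.Helper70.ML

theorem wt_le (n : ℕ) : wt n ≤ n ^ 6 := by
  unfold wt
  have h : (ordCompl[2] n) ≤ n := Nat.div_le_self _ _
  calc n * (ordCompl[2] n) ^ 5 ≤ n * n ^ 5 := Nat.mul_le_mul_left _ (Nat.pow_le_pow_left h 5)
    _ = n ^ 6 := by ring

theorem sts_mix {K : Type} [Group K] [Finite K] (h : STS K) :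
    ∃ k, Mix K k ∧ 2 ^ k ≤ Nat.card K ^ 6 := by
  obtain ⟨k, hk, hb⟩ := main _ K rfl h.1 h.2
  exact ⟨k, hk, hb.trans (wt_le _)⟩

theorem typ_odd {l : ℕ} {m : Fin l → Fin l → ℕ} {q : Fin l → ℕ} {K : ℕ} (h : Typ m q K) :
    ∀ i j, i ≠ j → Odd (m i j) → q i = q j := by
  intro i j hij ho
  rcases h with ⟨A, d, Φ, hR, h1, h2, -⟩ | ⟨i', j', hij', hall, -, hm, ho', -, -⟩
  · apply h2 i j hij
    rw [h1 i j hij] at ho ⊢
    unfold mm at ho ⊢
    split_ifs at ho ⊢ with ha hb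
    · exact absurd ho (by decide)
    · rfl
    · exact absurd ho (by decide)
  · rcases hall i with rfl | rfl
    · rcases hall j with rfl | rfl
      · exact absurd rfl hij
      · exact ho' ho
    · rcases hall j with rfl | rfl
      · rw [hm] at ho
        exact (ho' ho).symm
      · exact absurd rfl hij

theorem hLIEP : StLIEP := by
  intro hLADU hAVG hBAVG hBHEC hBSTP hBFOL hBTOR hBINV hBCST a Q _ _ hQ
  obtain ⟨l, B, n, q, m, h1, h2, h3, h4, h5, h6, h7, k, Lt, At, h8, h9, h10, h11⟩ := hQ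
  choose R hRB hRS hRc hRr using h7
  have hκ : ∀ i, ∃ κ, Mix (R i) κ ∧ 2 ^ κ ≤ Nat.card (R i) ^ 6 := fun i => sts_mix (hRS i)
  choose κ hκm hκb using hκ
  have hκ' : ∀ j, ∃ κ, Mix (Lt j) κ ∧ 2 ^ κ ≤ Nat.card (Lt j) ^ 6 := fun j => sts_mix (h8 j).1
  choose κ' hκm' hκb' using hκ'
  obtain ⟨F, hF1, hF2⟩ := hBTOR Q k Lt At κ' (fun j => ⟨hκm' j, (h8 j).2⟩) h9 (dlt Q)
  rw [h10] at hF2
  obtain ⟨T, hT, hH⟩ := hBHEC Q B l n q m h1 h2 h3 h4 (typ_odd h6)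
  obtain ⟨ws, hw1, hw2, hw3⟩ := hLADU l m q (Nat.card Q) h6 (fun i => (h3 i).1)
    (Module.End ℝ (VB B)) T hH
  have hq1 : ∀ i, 1 ≤ q i := fun i => le_trans (by norm_num) (h3 i).1
  have hstep : ∀ i (c : ℝ), 0 < c → ∀ f : VB B,
      Reach (1 + κ i) (f : Q → ℝ) ((c + (q i : ℝ))⁻¹ • (c • (f : Q → ℝ) + ((T i f : VB B) : Q → ℝ))) := by
    intro i c hc f
    rw [hT]
    have hq0 : (0 : ℝ) < q i := by exact_mod_cast hq1 i
    exact hBSTP Q B (R i) (n i) (q i : ℝ) c (κ i) hq0 hc (hRB i) (hκm i) (hRr i) f f.2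
  obtain ⟨lam, hl, hr⟩ := hBFOL Q B l q κ T hq1 hstep ws hw2 ⟨F, hF2⟩
  set X : VB B := PR T ws ⟨F, hF2⟩ with hX
  have hTX : ∀ i, T i X = (q i : ℝ) • X := by
    intro i
    have h := congrArg (fun S : Module.End ℝ (VB B) => S ⟨F, hF2⟩) (hw3 i)
    simp only [Module.End.mul_apply, Module.algebraMap_end_apply] at h
    exact h
  have hnX : ∀ i, n i ∈ stab (X : Q → ℝ) := by
    intro i
    refine hBINV.1 Q B (n i) X X.2 ?_
    have h := hT i X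
    rw [hTX i] at h
    have hq0 : (q i : ℝ) ≠ 0 := by
      have := hq1 i
      positivity
    have h' : (q i : ℝ) • (X : Q → ℝ) = (q i : ℝ) • avg B (L (n i) (X : Q → ℝ)) := h
    exact (smul_right_injective _ hq0 h').symm
  have htop : stab (X : Q → ℝ) = ⊤ := by
    rw [eq_top_iff, ← h5, Subgroup.closure_le]
    rintro x (hx | ⟨i, rfl⟩)
    · exact X.2 hx
    · exact hnX i
  refine ⟨∑ j, κ' j + (ws.map fun p => 1 + κ p.1).sum, ?_, ?_⟩
  · exact hBINV.2 Q _ X lam (hF1.trans hr) hl htop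
  · have c1 : 2 ^ (ws.map fun p => 1 + κ p.1).sum ≤ Nat.card Q ^ (6 * a + 1) := by
      refine hBCST.1 a (Nat.card Q) l q κ (fun i => (h3 i).1) (fun i => ?_) ws hw1
      calc 2 ^ κ i ≤ Nat.card (R i) ^ 6 := hκb i
        _ ≤ (q i ^ a) ^ 6 := Nat.pow_le_pow_left (hRc i) 6
        _ = q i ^ (6 * a) := by rw [← pow_mul, mul_comm]
    have c2 : 2 ^ (∑ j, κ' j) ≤ Nat.card Q ^ (6 * a) :=
      hBCST.2 a (Nat.card Q) k (fun j => Nat.card (Lt j)) κ' hκb' h11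
    calc 2 ^ (∑ j, κ' j + (ws.map fun p => 1 + κ p.1).sum)
        = 2 ^ (∑ j, κ' j) * 2 ^ (ws.map fun p => 1 + κ p.1).sum := pow_add _ _ _
      _ ≤ Nat.card Q ^ (6 * a) * Nat.card Q ^ (6 * a + 1) := Nat.mul_le_mul c2 c1
      _ = Nat.card Q ^ (12 * a + 1) := by rw [← pow_add]; congr 1; ring

end Pool.Agent.Helper57.BN
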