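import Pool.Agent.Helper70.BN.St1

/-!
# Project BN, module RSTR: two left descents
-/

set_option autoImplicit false

namespace Pool.Agent.Helper57.BN

open Pool.Agent.Helper70.BN

/-- a nonnegative combination of two simple roots -/
def Cmb {l : ℕ} (i j : Fin l) (β : Fin l → ℤ) : Prop :=
  ∃ x y : ℤ, 0 ≤ x ∧ 0 ≤ y ∧ β = x • al i + y • al j

theorem cmb1 {l : ℕ} (i j : Fin l) : Cmb i j (al i) := ⟨1, 0, by norm_num, by norm_num, by simp⟩

theorem cmb2 {l : ℕ} (i j : Fin l) : Cmb i j (al j) := ⟨0, 1, by norm_num, by norm_num, by simp⟩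

theorem cmb3 {l : ℕ} (i j : Fin l) : Cmb i j (al i + al j) :=
  ⟨1, 1, by norm_num, by norm_num, by simp⟩

theorem cmb4 {l : ℕ} (i j : Fin l) : Cmb i j ((2 : ℤ) • al i + al j) :=
  ⟨2, 1, by norm_num, by norm_num, by simp⟩

theorem cmb5 {l : ℕ} (i j : Fin l) : Cmb i j (al i + (2 : ℤ) • al j) :=
  ⟨1, 2, by norm_num, by norm_num, by simp⟩

theorem cmb_nonneg {l : ℕ} {i j : Fin l} {β : Fin l → ℤ} (h : Cmb i j β) : 0 ≤ β := by
  obtain ⟨x, y, hx, hy, rfl⟩ := h
  intro k
  have h1 := al_nonneg i k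
  have h2 := al_nonneg j k
  simp only [Pi.zero_apply] at h1 h2
  simp only [Pi.zero_apply, Pi.add_apply, Pi.smul_apply, smul_eq_mul]
  exact add_nonneg (mul_nonneg hx h1) (mul_nonneg hy h2)

theorem cmb_wa {l : ℕ} {A : Fin l → Fin l → ℤ} {i j : Fin l} {β : Fin l → ℤ} (h : Cmb i j β)
    (u : List (Fin l)) (hi : wa A u (al i) ≤ 0) (hj : wa A u (al j) ≤ 0) : wa A u β ≤ 0 := by
  obtain ⟨x, y, hx, hy, rfl⟩ := h
  rw [wa_add, wa_smul, wa_smul]
  intro k
  have h1 := hi k
  have h2 := hj k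
  simp only [Pi.zero_apply] at h1 h2
  simp only [Pi.zero_apply, Pi.add_apply, Pi.smul_apply, smul_eq_mul]
  exact add_nonpos (mul_nonpos_of_nonneg_of_nonpos hx h1) (mul_nonpos_of_nonneg_of_nonpos hy h2)

theorem hRSTR (hRINV : StRINV) (hRPRE : StRPRE) (hRTWO : StRTWO) : StRSTR := by
  intro l A d Φ h i j w hij hw hi hj
  obtain ⟨-, hinv, -⟩ := hRINV l A d Φ h
  have ri := (hinv w hw (al i) (h.simple i) (al_nonneg i)).2 hi
  have rj := (hinv w hw (al j) (h.simple j) (al_nonneg j)).2 hj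
  obtain ⟨hbr, hcases⟩ := hRTWO l A d Φ h i j hij
  have hform : (∀ β ∈ rts A (alt i j (mm A i j)), Cmb i j β) ∧
      (∀ β ∈ rts A (alt j i (mm A i j)), Cmb i j β) := by
    rcases hcases with ⟨-, -, hm, h1, h2⟩ | ⟨-, -, hm, h1, h2⟩ | ⟨-, -, hm, h1, h2⟩ |
      ⟨-, -, hm, h1, h2⟩
    all_goals
      rw [hm, h1, h2]
      constructor
      all_goals
        intro β hβ
        simp only [List.mem_cons, List.not_mem_nil, or_false] at hβ
    · rcases hβ with rfl | rfl
      · exact cmb1 i j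
      · exact cmb2 i j
    · rcases hβ with rfl | rfl
      · exact cmb2 i j
      · exact cmb1 i j
    · rcases hβ with rfl | rfl | rfl
      · exact cmb1 i j
      · exact cmb3 i j
      · exact cmb2 i j
    · rcases hβ with rfl | rfl | rfl
      · exact cmb2 i j
      · exact cmb3 i j
      · exact cmb1 i j
    · rcases hβ with rfl | rfl | rfl | rfl
      · exact cmb1 i j
      · exact cmb4 i j
      · exact cmb3 i j
      · exact cmb2 i j
    · rcases hβ with rfl | rfl | rfl | rfl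
      · exact cmb2 i j
      · exact cmb3 i j
      · exact cmb4 i j
      · exact cmb1 i j
    · rcases hβ with rfl | rfl | rfl | rfl
      · exact cmb1 i j
      · exact cmb3 i j
      · exact cmb5 i j
      · exact cmb2 i j
    · rcases hβ with rfl | rfl | rfl | rfl
      · exact cmb2 i j
      · exact cmb5 i j
      · exact cmb3 i j
      · exact cmb1 i j
  obtain ⟨f1, f2⟩ := hform
  have hp : Red A (alt i j (mm A i j)) := fun β hβ => cmb_nonneg (f1 β hβ)
  have hsub : ∀ β ∈ rts A (alt i j (mm A i j)), β ∈ rts A w := fun β hβ =>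
    (hinv w hw β (rts_mem h _ hβ) (cmb_nonneg (f1 β hβ))).1 (cmb_wa (f1 β hβ) _ ri rj)
  obtain ⟨w', hr, he⟩ := hRPRE l A d Φ h _ w hp hw hsub
  have hfun : wa A (alt j i (mm A i j)) = wa A (alt i j (mm A i j)) := by
    funext v
    exact (hbr v).symm
  refine ⟨w', hr, ?_, he, ?_⟩
  · intro β hβ
    rw [rts_append, List.mem_append] at hβ
    rcases hβ with hβ | hβ
    · exact cmb_nonneg (f2 β hβ)
    · rw [hfun] at hβ
      refine hr β ?_
      rw [rts_append, List.mem_append]
      exact Or.inr hβ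
  · intro v
    rw [wa_append, hfun, ← wa_append]
    exact he v

end Pool.Agent.Helper57.BN
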